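import Pool.Agent.K1H32.TD.Stm

/-! # Piece TD-C: the smooth cut-off on the circle (`S_CHI`, `S_SMO`) -/

set_option autoImplicit false

open Filter Topology

namespace Pool.Agent.K1H9.TD

open Pool.Agent.K1H32.TD

theorem ex_smooth : ContDiff ℝ (⊤ : ℕ∞) (fun x : ℝ => ex x) := by
  unfold ex
  have h1 : ContDiff ℝ (⊤ : ℕ∞) (fun x : ℝ => (x : ℂ) * Complex.I) :=
    Complex.ofRealCLM.contDiff.mul contDiff_const
  exact h1.cexp

theorem ex_norm (x : ℝ) : ‖ex x‖ = 1 := by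
  unfold ex
  exact Complex.norm_exp_ofReal_mul_I x

theorem nsq_smooth (t₀ : ℂ) : ContDiff ℝ (⊤ : ℕ∞) (fun x : ℝ => Complex.normSq (ex x - t₀)) := by
  have h1 : ContDiff ℝ (⊤ : ℕ∞) (fun x : ℝ => ex x - t₀) := ex_smooth.sub contDiff_const
  have hre : ContDiff ℝ (⊤ : ℕ∞) (fun x : ℝ => (ex x - t₀).re) :=
    Complex.reCLM.contDiff.comp h1
  have him : ContDiff ℝ (⊤ : ℕ∞) (fun x : ℝ => (ex x - t₀).im) :=
    Complex.imCLM.contDiff.comp h1
  have h2 := (hre.mul hre).add (him.mul him)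
  have h3 : (fun x : ℝ => Complex.normSq (ex x - t₀)) = fun x : ℝ =>
      (ex x - t₀).re * (ex x - t₀).re + (ex x - t₀).im * (ex x - t₀).im := by
    funext x
    rw [Complex.normSq_apply]
  rw [h3]
  exact h2

theorem t_chi : S_CHI := by
  intro t₀ t₁ h0 h1 hne
  have hd : 0 < ‖t₁ - t₀‖ := norm_pos_iff.mpr (sub_ne_zero.mpr (Ne.symm hne))
  have hN : Complex.normSq (t₁ - t₀) = ‖t₁ - t₀‖ ^ 2 := Complex.normSq_eq_norm_sq _
  refine ⟨?_, ?_, ?_, ?_⟩
  · have h2 : ContDiff ℝ (⊤ : ℕ∞) (fun x : ℝ =>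
        16 * Complex.normSq (ex x - t₀) / Complex.normSq (t₁ - t₀) - 1) :=
      ((contDiff_const.mul (nsq_smooth t₀)).div_const _).sub contDiff_const
    have h3 : ContDiff ℝ (⊤ : ℕ∞) (fun x : ℝ => Real.smoothTransition
        (16 * Complex.normSq (ex x - t₀) / Complex.normSq (t₁ - t₀) - 1)) :=
      Real.smoothTransition.contDiff.comp h2
    exact Complex.ofRealCLM.contDiff.comp h3
  · intro z
    have ha := Real.smoothTransition.nonneg
      (16 * Complex.normSq (z - t₀) / Complex.normSq (t₁ - t₀) - 1)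
    have hb := Real.smoothTransition.le_one
      (16 * Complex.normSq (z - t₀) / Complex.normSq (t₁ - t₀) - 1)
    unfold chi
    constructor
    · rw [Complex.norm_real, Real.norm_eq_abs, abs_of_nonneg ha]
      exact hb
    · rw [← Complex.ofReal_one, ← Complex.ofReal_sub, Complex.norm_real, Real.norm_eq_abs,
        abs_of_nonneg (by linarith)]
      linarith
  · intro z hz
    unfold chi
    rw [Real.smoothTransition.zero_of_nonpos, Complex.ofReal_zero]
    rw [hN, Complex.normSq_eq_norm_sq, sub_nonpos, div_le_one (by positivity)]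
    have : ‖z - t₀‖ ^ 2 ≤ (‖t₁ - t₀‖ / 4) ^ 2 := pow_le_pow_left₀ (norm_nonneg _) hz 2
    nlinarith
  · intro z hz
    unfold chi
    rw [Real.smoothTransition.one_of_one_le, Complex.ofReal_one]
    have h3 : ‖t₁ - t₀‖ ≤ ‖z - t₁‖ + ‖z - t₀‖ := by
      have : t₁ - t₀ = -(z - t₁) + (z - t₀) := by ring
      calc ‖t₁ - t₀‖ = ‖-(z - t₁) + (z - t₀)‖ := by rw [← this]
        _ ≤ ‖-(z - t₁)‖ + ‖z - t₀‖ := norm_add_le _ _
        _ = _ := by rw [norm_neg]
    have h4 : 3 / 4 * ‖t₁ - t₀‖ ≤ ‖z - t₀‖ := by linarith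
    have h5 : (3 / 4 * ‖t₁ - t₀‖) ^ 2 ≤ ‖z - t₀‖ ^ 2 := pow_le_pow_left₀ (by positivity) h4 2
    rw [hN, Complex.normSq_eq_norm_sq, le_sub_iff_add_le, le_div_iff₀ (by positivity)]
    nlinarith

theorem u_smoothAt {β t₀ : ℂ} (h0 : ‖t₀‖ = 1) {x : ℝ} (hx : ex x ≠ t₀) :
    ContDiffAt ℝ (⊤ : ℕ∞) (fun y : ℝ => u β t₀ (ex y)) x := by
  have ht : t₀ ≠ 0 := by
    rintro rfl
    simp at h0
  have hn : ∀ y : ℝ, -ex y / t₀ ≠ 0 := fun y => by
    refine div_ne_zero (neg_ne_zero.mpr ?_) ht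
    intro h
    have := ex_norm y
    rw [h, norm_zero] at this
    exact zero_ne_one this
  have hun : ‖-ex x / t₀‖ = 1 := by
    rw [norm_div, norm_neg, ex_norm, h0, div_one]
  have hs : -ex x / t₀ ∈ Complex.slitPlane := by
    rw [Complex.mem_slitPlane_iff_not_le_zero]
    intro hle
    have h1 : (-ex x / t₀).re ≤ 0 ∧ (-ex x / t₀).im = 0 := by
      rw [Complex.le_def] at hle
      exact ⟨hle.1, hle.2⟩
    have h2 : (-ex x / t₀).re = -1 := by
      have h3 := Complex.sq_norm_sub_sq_re (-ex x / t₀)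
      rw [hun, h1.2] at h3
      have h4 : ((-ex x / t₀).re - 1) * ((-ex x / t₀).re + 1) = 0 := by nlinarith
      rcases mul_eq_zero.mp h4 with h5 | h5
      · linarith [h1.1]
      · linarith
    have h3 : -ex x / t₀ = -1 := by
      apply Complex.ext
      · rw [h2]; simp
      · rw [h1.2]; simp
    rw [div_eq_iff ht] at h3
    apply hx
    have : ex x = - (-ex x) := by ring
    rw [this, h3]
    ring
  have h1 : ContDiffAt ℝ (⊤ : ℕ∞) (fun y : ℝ => -ex y / t₀) x :=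
    (ex_smooth.neg.div_const t₀).contDiffAt
  have h2 : ContDiffAt ℝ (⊤ : ℕ∞) Complex.log (-ex x / t₀) :=
    (Complex.contDiffAt_log hs).restrict_scalars ℝ
  have h3 : ContDiffAt ℝ (⊤ : ℕ∞) (fun y : ℝ => Complex.log (-ex y / t₀)) x :=
    ContDiffAt.comp (g := Complex.log) (f := fun y : ℝ => -ex y / t₀) x h2 h1
  have h4 : ContDiffAt ℝ (⊤ : ℕ∞) (fun y : ℝ => Complex.exp (Complex.log (-ex y / t₀) * β)) x :=
    (h3.mul contDiffAt_const).cexp
  refine h4.congr_of_eventuallyEq (Eventually.of_forall fun y => ?_)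
  show u β t₀ (ex y) = _
  unfold u
  rw [Complex.cpow_def_of_ne_zero (hn y)]

theorem t_smo : S_SMO := by
  intro R β t₀ g δ h0 hδ hg hz
  rw [contDiff_iff_contDiffAt]
  intro x
  by_cases hx : ‖ex x - t₀‖ < δ
  · have hc : Continuous (fun y : ℝ => ‖ex y - t₀‖) :=
      (ex_smooth.continuous.sub continuous_const).norm
    have hev : ∀ᶠ y in 𝓝 x, ‖ex y - t₀‖ < δ := hc.continuousAt.eventually_lt continuousAt_const hx
    refine (contDiffAt_const (c := (0 : ℂ))).congr_of_eventuallyEq ?_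
    filter_upwards [hev] with y hy
    rw [hz y hy.le, zero_mul]
  · have hne : ex x ≠ t₀ := by
      intro h
      rw [h, sub_self, norm_zero] at hx
      exact hx hδ
    refine hg.contDiffAt.mul ?_
    exact contDiffAt_prod fun r _ => u_smoothAt h0 hne

end Pool.Agent.K1H9.TD
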